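import Pool.Agent.Lib.FMM.Final

/-!
Full-Miller measurability of all sets of functions from kappa to kappa that are definable from a
kappa-sequence of ordinals, in the extension by a Cohen type forcing.
-/

namespace Pool.Agent.Results.MP_9b7d8a_lc.CohenExtension

open Cardinal Pool.Agent.Lib.BVM Pool.Agent.Lib.WkD Pool.Agent.Lib.FMM

/-- The property of the problem: in the structure `(M, E)` the set `k` is a regular uncountable
cardinal with `k^{<k} = k` and every subset of `k^k` which is definable by a formula with a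
parameter in `On^k` is full-Miller measurable. -/
def Good {M : Type 1} (E : M → M → Prop) (k : M) : Prop :=
  RegUnc E k ∧ PowLt E k ∧
    ∀ (φ : Fml) (y : M), IsOnSeq E k y →
      Measurable E k (fun x => Sat E φ (fun i => if i = 0 then x else y))

/-- There is a model of ZFC with such a cardinal. In detail: let `κ` be regular and uncountable,
`κ ≤ #Z`, `#Z ^ ν ≤ #Z` for `ν < κ`, and `#Z < #J`. Let `U` be any ultrafilter on the Boolean algebra
of the forcing order of the partial functions from `J` to `Z` with domain of size `< κ`. Then the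
quotient by `U` of the Boolean valued universe is such a model, at the check name of `κ`. -/
theorem result :
    (∃ (M : Type 1) (E : M → M → Prop), ModelZFC M E ∧ ∃ k, Good E k) ∧
    ∀ (κ : Cardinal.{0}), κ.IsRegular → ℵ₀ < κ → ∀ (J Z : Type), κ ≤ #Z →
      (∀ ν < κ, #Z ^ ν ≤ #Z) → #Z < #J → ∀ U : Ultra (ROP (Fn κ J Z)),
        ModelZFC (Mod U) (E U) ∧ Good (E U) (q U (lamN (ROP (Fn κ J Z)) κ.ord.ToType)) := by
  have main : ∀ (κ : Cardinal.{0}), κ.IsRegular → ℵ₀ < κ → ∀ (J Z : Type), κ ≤ #Z →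
      (∀ ν < κ, #Z ^ ν ≤ #Z) → #Z < #J → ∀ U : Ultra (ROP (Fn κ J Z)),
        ModelZFC (Mod U) (E U) ∧ Good (E U) (q U (lamN (ROP (Fn κ J Z)) κ.ord.ToType)) := by
    intro κ h1 h2 J Z h3 h4 h5 U
    have hK : RegK κ κ.ord.ToType := regK_ord h1 h2
    have hZ : ZC κ Z := ⟨h3, h4⟩
    exact ⟨modelZFC U, regUnc hK U, powLt hK hZ h5 U, fun φ y hy => measurable hK hZ h5 U φ y hy⟩
  refine ⟨?_, main⟩
  have hZ1 : (#(Set ℕ)) ^ ℵ₀ = #(Set ℕ) := by
    rw [mk_set, mk_nat, ← power_mul, aleph0_mul_aleph0]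
  have hZ0 : ℵ₀ ≤ #(Set ℕ) := by
    rw [mk_set, mk_nat]
    exact (cantor ℵ₀).le
  have hJ : #(Set ℕ) < #(Set (Set ℕ)) := by
    rw [mk_set (α := Set ℕ)]
    exact cantor _
  obtain ⟨U, -⟩ := Ultra.exists_mem
    (em_ne_bot (P := Fn (ℵ₁ : Cardinal.{0}) (Set (Set ℕ)) (Set ℕ))
      ⟨fun _ => none, by
        have h : PF.dom (fun _ : Set (Set ℕ) => (none : Option (Set ℕ))) = ∅ := by
          ext i
          simp [PF.dom]
        rw [h, mk_eq_zero]
        exact aleph_pos 1⟩)
  obtain ⟨h6, h7⟩ := main ℵ₁ isRegular_aleph_one aleph0_lt_aleph_one (Set (Set ℕ)) (Set ℕ) (by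
      rw [mk_set, mk_nat, ← succ_aleph0]
      exact Order.succ_le_of_lt (cantor ℵ₀)) (fun ν hν => by
      have h : ν ≤ ℵ₀ := by
        rw [← succ_aleph0] at hν
        exact Order.lt_succ_iff.1 hν
      calc #(Set ℕ) ^ ν ≤ #(Set ℕ) ^ ℵ₀ := power_le_power_left (aleph0_pos.trans_le hZ0).ne' h
        _ = #(Set ℕ) := hZ1
        _ ≤ #(Set ℕ) := le_rfl) hJ U
  exact ⟨Mod U, E U, h6, _, h7⟩

end Pool.Agent.Results.MP_9b7d8a_lc.CohenExtension
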